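import Pool.Agent.W307.RT.Stm
import Pool.Agent.W262.RK.NT1
import Pool.Agent.W214.RK2.Desc4
import Pool.Agent.W342.RK2.LocL

/-! Task TRK-RANK2: the rank bound at a point. -/

set_option autoImplicit false
set_option linter.unusedSectionVars false

namespace Pool.Agent.W571.RT

open Finset Pool.Agent.W262.RK Pool.Agent.W307.RT

variable {J : Type} [Fintype J] [DecidableEq J]

lemma fv_res {α β : J → ℤ} (u v : ℤ) (j l : J) :
    Res α β j l * v = α j * fv α β u v l - α l * fv α β u v j := by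
  unfold Res fv; ring

lemma fv_res' {α β : J → ℤ} (u v : ℤ) (j l : J) :
    Res α β j l * u = β l * fv α β u v j - β j * fv α β u v l := by
  unfold Res fv; ring

/-- a large prime divides at most one of the values -/
lemma fv_not_dvd {α β : J → ℤ} {z : ℕ} (hB : Bg α β z) {p : ℕ} (hp : p.Prime) (hz : z < p)
    {u v : ℤ} (huv : IsCoprime u v) {j l : J} (hjl : j ≠ l) (hj : (p : ℤ) ∣ fv α β u v j) :
    ¬ (p : ℤ) ∣ fv α β u v l := by
  intro hl
  have hpi : Prime (p : ℤ) := Nat.prime_iff_prime_int.1 hp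
  have hR := (hB.2 p hp hz).2 j l hjl
  have h1 : (p : ℤ) ∣ Res α β j l * v := by
    rw [fv_res]; exact dvd_sub (hl.mul_left _) (hj.mul_left _)
  have h2 : (p : ℤ) ∣ Res α β j l * u := by
    rw [fv_res']; exact dvd_sub (hj.mul_left _) (hl.mul_left _)
  have h3 := (hpi.dvd_or_dvd h1).resolve_left hR
  have h4 := (hpi.dvd_or_dvd h2).resolve_left hR
  exact hpi.not_isUnit (huv.isUnit_of_dvd' h4 h3)

lemma v_not_dvd {α β : J → ℤ} {z : ℕ} (hB : Bg α β z) {p : ℕ} (hp : p.Prime) (hz : z < p)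
    {u v : ℤ} (huv : IsCoprime u v) {j : J} (hj : (p : ℤ) ∣ fv α β u v j) : ¬ (p : ℤ) ∣ v := by
  intro hv
  have hpi : Prime (p : ℤ) := Nat.prime_iff_prime_int.1 hp
  have h1 : (p : ℤ) ∣ α j * u := by
    have : α j * u = fv α β u v j - β j * v := by unfold fv; ring
    rw [this]
    exact dvd_sub hj (hv.mul_left _)
  have h2 := (hpi.dvd_or_dvd h1).resolve_left ((hB.2 p hp hz).1 j)
  exact hpi.not_isUnit (huv.isUnit_of_dvd' h2 hv)

lemma S1_dvd_iff {z y : ℕ} {f : J → ℤ} {p : ℕ} (hp : p.Prime) {j : J} :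
    p ∣ S1 z y f j ↔ p ∈ PS z y ∧ (p : ℤ) ∣ f j ∧ ¬ (p : ℤ) ^ 2 ∣ f j := by
  unfold S1
  rw [prime_dvd_prodS (fun q hq => (mem_PS.1 (mem_filter.1 hq).1).2) hp, mem_filter]

lemma S1_mem {z y : ℕ} {f : J → ℤ}
    (hd : ∀ p : ℕ, p.Prime → z < p → ∀ j l, j ≠ l → ¬ ((p : ℤ) ∣ f j ∧ (p : ℤ) ∣ f l)) :
    S1 z y f ∈ Tup J z y := by
  rw [mem_Tup']
  refine ⟨fun j => ?_, fun i j hij => ?_⟩
  · unfold S1 PP
    exact prod_dvd_prod_of_subset _ _ _ (filter_subset _ _)
  · rw [Nat.coprime_iff_gcd_eq_one]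
    by_contra hne
    obtain ⟨p, hp, hpd⟩ := Nat.exists_prime_and_dvd hne
    have h1 := (S1_dvd_iff hp).1 (hpd.trans (Nat.gcd_dvd_left _ _))
    have h2 := (S1_dvd_iff hp).1 (hpd.trans (Nat.gcd_dvd_right _ _))
    exact hd p hp (mem_PS.1 h1.1).1.1 i j hij ⟨h1.2.1, h2.2.1⟩

/-- products over other forms are not divisible -/
lemma ndM {a : Fin 3 → ℤ} {α β : J → ℤ} {μ : J → ℕ} {z : ℕ} (hB : Bg α β z)
    (ha : ∀ p : ℕ, p.Prime → z < p → ∀ k, ¬ (p : ℤ) ∣ a k) {p : ℕ}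
    (hp : p.Prime) (hz : z < p) {u v : ℤ} (huv : IsCoprime u v) {j : J}
    (hj : (p : ℤ) ∣ fv α β u v j) {k : Fin 3}
    {S : Finset J} (hS : j ∉ S) : ¬ (p : ℤ) ∣ a k * ∏ l ∈ S, fv α β u v l ^ μ l := by
  intro h
  have hpi : Prime (p : ℤ) := Nat.prime_iff_prime_int.1 hp
  rcases hpi.dvd_or_dvd h with h1 | h1
  · exact ha p hp hz k h1
  · obtain ⟨l, hl, hl2⟩ := (hpi.dvd_finsetProd_iff _).1 h1
    have hl3 := hpi.dvd_of_dvd_pow hl2
    refine fv_not_dvd hB hp hz huv (j := j) (l := l) ?_ hj hl3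
    rintro rfl
    exact hS hl

lemma cpM_ne : ∀ c : Fin 4, c ≠ 3 → (cpM c).castSucc ≠ c := by decide

lemma sgM_sq (c : Fin 4) : sgM c * sgM c = 1 := by
  unfold sgM; split_ifs <;> rfl

lemma jac_sq {p : ℕ} (hp : p.Prime) {x : ℤ} (hx : ¬ (p : ℤ) ∣ x) : jacobiSym (x ^ 2) p = 1 := by
  apply jacobiSym.sq_one'
  rw [← Int.isCoprime_iff_gcd_eq_one]
  exact IsCoprime.symm ((Prime.coprime_iff_not_dvd (Nat.prime_iff_prime_int.1 hp)).2 hx)

lemma prodR {α β : J → ℤ} {μ : J → ℕ} {p : ℕ} {u v : ℤ} {j : J} (hj : (p : ℤ) ∣ fv α β u v j)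
    (S : Finset J) :
    v ^ (∑ l ∈ S, μ l) * (∏ l ∈ S, Res α β j l ^ μ l) ≡
      (α j) ^ (∑ l ∈ S, μ l) * ∏ l ∈ S, fv α β u v l ^ μ l [ZMOD p] := by
  rw [← prod_pow_eq_pow_sum, ← prod_pow_eq_pow_sum, ← prod_mul_distrib, ← prod_mul_distrib]
  refine Int.ModEq.prod fun l _ => ?_
  rw [← mul_pow, ← mul_pow]
  apply Int.ModEq.pow
  rw [Int.modEq_iff_dvd]
  have : α j * fv α β u v l - v * Res α β j l = α l * fv α β u v j := by unfold Res fv; ring
  rw [this]
  exact hj.mul_left _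

lemma symbM {cls : J → Fin 4} {a : Fin 3 → ℤ} {μ : J → ℕ} {α β : J → ℤ} {z : ℕ} (hB : Bg α β z)
    (ha : ∀ p : ℕ, p.Prime → z < p → ∀ k, ¬ (p : ℤ) ∣ a k)
    (hev : ∀ k, Even (∑ l ∈ fc cls k, μ l)) {p : ℕ}
    (hp : p.Prime) (hz : z < p) {u v : ℤ} (huv : IsCoprime u v) {j : J}
    (hj : (p : ℤ) ∣ fv α β u v j) (h3 : cls j ≠ 3) :
    jacobiSym (kapM cls a μ α β j * (sgM (cls j) *
      FM cls a μ (fv α β u v) (cpM (cls j)))) p = 1 := by
  have hpi : Prime (p : ℤ) := Nat.prime_iff_prime_int.1 hp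
  set k' := cpM (cls j) with hk'
  have hjS : j ∉ fc cls k' := by
    intro h
    unfold fc at h
    rw [mem_filter] at h
    exact cpM_ne _ h3 h.2.symm
  have hF : ¬ (p : ℤ) ∣ FM cls a μ (fv α β u v) k' := ndM hB ha hp hz huv hj hjS
  have hα := (hB.2 p hp hz).1 j
  have hv := v_not_dvd hB hp hz huv hj
  obtain ⟨m, hm⟩ := hev k'
  set R : ℤ := a k' * ∏ l ∈ fc cls k', Res α β j l ^ μ l with hR
  set F : ℤ := FM cls a μ (fv α β u v) k' with hFd
  have h1 : kapM cls a μ α β j * (sgM (cls j) * F) = R * F := by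
    unfold kapM
    rw [← hk', ← hR]
    linear_combination (R * F) * sgM_sq (cls j)
  have h2 : (v ^ m) ^ 2 * R ≡ (α j ^ m) ^ 2 * F [ZMOD p] := by
    have := (prodR (μ := μ) hj (fc cls k')).mul_left (a k')
    rw [hm] at this
    have e1 : a k' * (v ^ (m + m) * ∏ l ∈ fc cls k', Res α β j l ^ μ l) = (v ^ m) ^ 2 * R := by
      rw [hR]; ring
    have e2 : a k' * (α j ^ (m + m) * ∏ l ∈ fc cls k', fv α β u v l ^ μ l) =
        (α j ^ m) ^ 2 * F := by
      rw [hFd]; unfold FM; ring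
    rwa [e1, e2] at this
  have h3' : (R * F) * (v ^ m) ^ 2 ≡ ((α j ^ m) * F) ^ 2 [ZMOD p] := by
    have := h2.mul_right F
    have e1 : (v ^ m) ^ 2 * R * F = (R * F) * (v ^ m) ^ 2 := by ring
    have e2 : (α j ^ m) ^ 2 * F * F = ((α j ^ m) * F) ^ 2 := by ring
    rwa [e1, e2] at this
  have h4 : jacobiSym ((R * F) * (v ^ m) ^ 2) p = 1 := by
    rw [jacobiSym.mod_left' h3']
    apply jac_sq hp
    intro h
    rcases hpi.dvd_or_dvd h with h5 | h5
    · exact hα (hpi.dvd_of_dvd_pow h5)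
    · exact hF h5
  rw [jacobiSym.mul_left, jac_sq hp (fun h => hv (hpi.dvd_of_dvd_pow h)), mul_one] at h4
  rw [h1, h4]

/-- the valuation of `F_k` -/
lemma valF {cls : J → Fin 4} {a : Fin 3 → ℤ} {μ : J → ℕ} {α β : J → ℤ} {z : ℕ} (hB : Bg α β z)
    (ha : ∀ p : ℕ, p.Prime → z < p → ∀ k, ¬ (p : ℤ) ∣ a k) {p : ℕ}
    (hp : p.Prime) (hz : z < p) {u v : ℤ} (huv : IsCoprime u v) {j : J}
    (h0 : fv α β u v j ≠ 0)
    (hj : (p : ℤ) ∣ fv α β u v j) (hj2 : ¬ (p : ℤ) ^ 2 ∣ fv α β u v j) {k : Fin 3}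
    (hk : j ∈ fc cls k) : padicValInt p (FM cls a μ (fv α β u v) k) = μ j := by
  have : Fact p.Prime := ⟨hp⟩
  have hpi : Prime (p : ℤ) := Nat.prime_iff_prime_int.1 hp
  have hn := ndM (μ := μ) (k := k) hB ha hp hz huv hj (notMem_erase j (fc cls k))
  have e1 : FM cls a μ (fv α β u v) k = fv α β u v j ^ μ j *
      (a k * ∏ l ∈ (fc cls k).erase j, fv α β u v l ^ μ l) := by
    unfold FM
    rw [← mul_prod_erase _ _ hk]
    ring
  have hX0 : (a k * ∏ l ∈ (fc cls k).erase j, fv α β u v l ^ μ l) ≠ 0 := by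
    intro h
    rw [h] at hn
    exact hn (dvd_zero _)
  have hv1 : padicValInt p (fv α β u v j) = 1 := by
    apply le_antisymm
    · by_contra h
      push Not at h
      exact hj2 ((padicValInt_dvd_iff 2 _).2 (Or.inr (by omega)))
    · rcases (padicValInt_dvd_iff (p := p) 1 (fv α β u v j)).1 (by simpa using hj) with h | h
      · exact absurd h h0
      · exact h
  rw [e1, padicValInt.mul (pow_ne_zero _ h0) hX0, padicValInt.eq_zero_of_not_dvd hn, add_zero]
  have h2 : ∀ n : ℕ, padicValInt p (fv α β u v j ^ n) = n := by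
    intro n
    induction n with
    | zero => simp
    | succ n ih => rw [pow_succ, padicValInt.mul (pow_ne_zero _ h0) h0, ih, hv1]
  exact h2 _

/-- the local hypotheses hold -/
lemma locHM {cls : J → Fin 4} {a : Fin 3 → ℤ} {μ : J → ℕ} {α β : J → ℤ} {z : ℕ} (hB : Bg α β z)
    (ha : ∀ p : ℕ, p.Prime → z < p → ∀ k, ¬ (p : ℤ) ∣ a k)
    (hev : ∀ k, Even (∑ l ∈ fc cls k, μ l)) (hμ : ∀ j, 1 ≤ μ j)
    {p : ℕ} (hp : p.Prime) (hz : z < p) {u v : ℤ} (huv : IsCoprime u v) {j : J}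
    (hF : FM cls a μ (fv α β u v) 0 - FM cls a μ (fv α β u v) 1 = FM cls a μ (fv α β u v) 2)
    (h0 : fv α β u v j ≠ 0)
    (hj : (p : ℤ) ∣ fv α β u v j) (hj2 : ¬ (p : ℤ) ^ 2 ∣ fv α β u v j) (h3 : cls j ≠ 3)
    (hκ : ¬ (p : ℤ) ∣ kapM cls a μ α β j)
    (hodd : Odd (μ j) ∨ IsSquare (kapM cls a μ α β j)) :
    LocM (cls j) (kapM cls a μ α β j) p (FM cls a μ (fv α β u v) 0)
      (FM cls a μ (fv α β u v) 1) := by
  have hpi : Prime (p : ℤ) := Nat.prime_iff_prime_int.1 hp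
  have hmem : ∀ k : Fin 3, j ∈ fc cls k ↔ cls j = k.castSucc := fun k => by
    unfold fc
    rw [mem_filter]
    exact ⟨fun h => h.2, fun h => ⟨mem_univ _, h⟩⟩
  have hn : ∀ k, j ∉ fc cls k → ¬ (p : ℤ) ∣ FM cls a μ (fv α β u v) k :=
    fun k hk => ndM hB ha hp hz huv hj hk
  have hs := symbM (cls := cls) (μ := μ) hB ha hev hp hz huv hj h3
  have hval : ∀ k, j ∈ fc cls k → padicValInt p (FM cls a μ (fv α β u v) k) = μ j :=
    fun k hk => valF hB ha hp hz huv h0 hj hj2 hk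
  have hdv : ∀ k, j ∈ fc cls k → (p : ℤ) ∣ FM cls a μ (fv α β u v) k := by
    intro k hk
    unfold FM
    rw [← mul_prod_erase _ _ hk]
    apply Dvd.dvd.mul_left
    apply Dvd.dvd.mul_right
    exact dvd_pow hj (by have := hμ j; omega)
  have hlast : ∀ k, j ∈ fc cls k → (Odd (padicValInt p (FM cls a μ (fv α β u v) k)) ∨
      jacobiSym (kapM cls a μ α β j) p = 1) := by
    intro k hk
    rw [hval k hk]
    refine hodd.imp_right fun h => ?_
    obtain ⟨w, hw⟩ := h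
    rw [hw, ← pow_two]
    apply jac_sq hp
    intro h5
    apply hκ
    rw [hw]
    exact h5.mul_right _
  have hcase : cls j = 0 ∨ cls j = 1 ∨ cls j = 2 ∨ cls j = 3 := by
    generalize cls j = c
    revert c
    decide
  unfold LocM
  rcases hcase with h | h | h | h
  · rw [if_pos h]
    have hm0 := (hmem 0).2 (by rw [h]; rfl)
    have h2 := hn 1 (fun h3 => by
      have h4 := (hmem 1).1 h3
      rw [h] at h4; exact absurd h4 (by decide))
    rw [h, show sgM 0 = -1 from rfl, show cpM 0 = 1 from rfl, neg_one_mul] at hs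
    exact ⟨hdv 0 hm0, h2, hs, hlast 0 hm0⟩
  · rw [if_neg (by rw [h]; decide), if_pos h]
    have hm0 := (hmem 1).2 (by rw [h]; rfl)
    have h2 := hn 0 (fun h3 => by
      have h4 := (hmem 0).1 h3
      rw [h] at h4; exact absurd h4 (by decide))
    rw [h, show sgM 1 = -1 from rfl, show cpM 1 = 0 from rfl, neg_one_mul] at hs
    exact ⟨hdv 1 hm0, h2, hs, hlast 1 hm0⟩
  · rw [if_neg (by rw [h]; decide), if_neg (by rw [h]; decide)]
    have hm0 := (hmem 2).2 (by rw [h]; rfl)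
    have h2 := hn 0 (fun h3 => by
      have h4 := (hmem 0).1 h3
      rw [h] at h4; exact absurd h4 (by decide))
    rw [h, show sgM 2 = 1 from rfl, show cpM 2 = 0 from rfl, one_mul] at hs
    rw [hF]
    exact ⟨hdv 2 hm0, h2, hs, hlast 2 hm0⟩
  · exact absurd h h3

/-- the number of the primes outside `S1` -/
lemma badM {cls : J → Fin 4} {a : Fin 3 → ℤ} {μ : J → ℕ} {α β : J → ℤ} {z y X K : ℕ}
    (hB : Bg α β z) (ha : ∀ p : ℕ, p.Prime → z < p → ∀ k, ¬ (p : ℤ) ∣ a k) {u v : ℤ}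
    (hX : 1 ≤ X) (hy : 1 ≤ y) (h0 : ∀ j, fv α β u v j ≠ 0)
    (hb : ∀ j, (fv α β u v j).natAbs ≤ X ^ 2) (hK : X < (y + 1) ^ K) :
    ((2 * FM cls a μ (fv α β u v) 0 * FM cls a μ (fv α β u v) 1 *
      FM cls a μ (fv α β u v) 2).natAbs.primeFactors.filter
        (fun q => ¬ q ∣ ∏ j, S1 z y (fv α β u v) j)).card ≤
      z + Fintype.card J * (2 * K) + ∑ j, (S2 z y (fv α β u v) j).primeFactors.card := by
  have hsub : ((2 * FM cls a μ (fv α β u v) 0 * FM cls a μ (fv α β u v) 1 *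
      FM cls a μ (fv α β u v) 2).natAbs.primeFactors.filter
        (fun q => ¬ q ∣ ∏ j, S1 z y (fv α β u v) j)) ⊆
      ((Icc 1 z) ∪ univ.biUnion (fun j => (fv α β u v j).natAbs.primeFactors.filter (y < ·))) ∪
        univ.biUnion (fun j => (S2 z y (fv α β u v) j).primeFactors) := by
    intro q hq
    rw [mem_filter] at hq
    have hp := Nat.prime_of_mem_primeFactors hq.1
    have hdv := Nat.dvd_of_mem_primeFactors hq.1
    rw [mem_union, mem_union, mem_Icc]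
    rcases Nat.lt_or_ge z q with h | h
    swap
    · exact Or.inl (Or.inl ⟨hp.one_lt.le, h⟩)
    · have hqi : Prime (q : ℤ) := Nat.prime_iff_prime_int.1 hp
      have hdv2 : (q : ℤ) ∣ 2 * FM cls a μ (fv α β u v) 0 * FM cls a μ (fv α β u v) 1 *
          FM cls a μ (fv α β u v) 2 := Int.natCast_dvd.2 hdv
      have hk : ∃ k, (q : ℤ) ∣ FM cls a μ (fv α β u v) k := by
        rcases hqi.dvd_or_dvd hdv2 with h1 | h1
        · rcases hqi.dvd_or_dvd h1 with h2 | h2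
          · rcases hqi.dvd_or_dvd h2 with h3 | h3
            · exfalso
              have h4 : q ∣ 2 := by exact_mod_cast h3
              have h5 := Nat.le_of_dvd (by norm_num) h4
              have := hB.1
              omega
            · exact ⟨0, h3⟩
          · exact ⟨1, h2⟩
        · exact ⟨2, h1⟩
      obtain ⟨k, hk⟩ := hk
      rcases hqi.dvd_or_dvd hk with h1 | h1
      · exact absurd h1 (ha q hp h k)
      · obtain ⟨l, _, hl'⟩ := (hqi.dvd_finsetProd_iff _).1 h1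
        have hl := hqi.dvd_of_dvd_pow hl'
        rcases Nat.lt_or_ge y q with hyq | hyq
        · left; right
          rw [mem_biUnion]
          refine ⟨l, mem_univ _, ?_⟩
          rw [mem_filter, Nat.mem_primeFactors]
          exact ⟨⟨hp, Int.natCast_dvd.1 hl, Int.natAbs_ne_zero.2 (h0 l)⟩, hyq⟩
        · right
          have hPS : q ∈ PS z y := mem_PS.2 ⟨⟨h, hyq⟩, hp⟩
          rw [mem_biUnion]
          refine ⟨l, mem_univ _, ?_⟩
          have hsq : (q : ℤ) ^ 2 ∣ fv α β u v l := by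
            by_contra hcon
            apply hq.2
            refine dvd_trans ?_ (dvd_prod_of_mem _ (mem_univ l))
            exact dvd_prod_of_mem _ (mem_filter.2 ⟨hPS, hl, hcon⟩)
          rw [Nat.mem_primeFactors]
          refine ⟨hp, dvd_prod_of_mem _ (mem_filter.2 ⟨hPS, hsq⟩), ?_⟩
          exact prod_ne_zero_iff.2 fun p hp => (mem_PS.1 (mem_filter.1 hp).1).2.ne_zero
  have hone : ∀ j, ((fv α β u v j).natAbs.primeFactors.filter (y < ·)).card ≤ 2 * K := by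
    intro j
    set S := (fv α β u v j).natAbs.primeFactors.filter (y < ·) with hS
    have h1 : (y + 1) ^ S.card ≤ ∏ q ∈ S, q :=
      Finset.pow_card_le_prod _ _ _ (fun q hq => by
        have := (mem_filter.1 hq).2
        omega)
    have h2 : ∏ q ∈ S, q ∣ (fv α β u v j).natAbs :=
      (prod_dvd_prod_of_subset _ _ _ (filter_subset _ _)).trans (Nat.prod_primeFactors_dvd _)
    have h3 : ∏ q ∈ S, q ≤ (fv α β u v j).natAbs :=
      Nat.le_of_dvd (Nat.pos_of_ne_zero (Int.natAbs_ne_zero.2 (h0 j))) h2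
    have h4 : (y + 1) ^ S.card < (y + 1) ^ (2 * K) := by
      calc (y + 1) ^ S.card ≤ X ^ 2 := h1.trans (h3.trans (hb j))
        _ < ((y + 1) ^ K) ^ 2 := Nat.pow_lt_pow_left hK (by norm_num)
        _ = (y + 1) ^ (2 * K) := by rw [← pow_mul, mul_comm]
    exact ((Nat.pow_lt_pow_iff_right (by omega)).1 h4).le
  refine (card_le_card hsub).trans ((card_union_le _ _).trans (add_le_add
    ((card_union_le _ _).trans (add_le_add ?_ ?_)) card_biUnion_le))
  · simp
  · refine card_biUnion_le.trans ?_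
    refine (sum_le_sum fun j _ => hone j).trans ?_
    rw [sum_const, card_univ, smul_eq_mul]

theorem rank2_of (hloc : LOCM) : RANK2 := by
  intro J _ _ cls a μ α β z hc3 ha0 hμ hB ha hev hκ0 hκ hodd hFF X y k u v huv h0 hb hX hy hk
  have hF := hFF u v
  set f := fv α β u v with hf
  have hFne : ∀ k, FM cls a μ f k ≠ 0 := fun k =>
    mul_ne_zero (ha0 k) (prod_ne_zero_iff.2 fun l _ => pow_ne_zero _ (h0 l))
  have hz2 : 2 ≤ z := by have := hB.1; omega
  set s := S1 z y f with hs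
  have hmem : s ∈ Tup J z y := S1_mem (fun p hp hzp j l hjl h =>
    fv_not_dvd hB hp hzp huv hjl h.1 h.2)
  have hmd : ∏ j, s j ∣ PP z y := Tup_prod_dvd hmem
  have hPSof : ∀ p : ℕ, p.Prime → p ∣ ∏ j, s j → p ∈ PS z y := fun p hp h =>
    (prime_dvd_PP hp).1 (h.trans hmd)
  have hnκ : ∀ p : ℕ, p.Prime → p ∣ ∏ j, s j → ∀ j, ¬ (p : ℤ) ∣ kapM cls a μ α β j := by
    intro p hp h j hd
    have h1 := (mem_PS.1 (hPSof p hp h)).1.1
    have h2 := Nat.le_of_dvd (Int.natAbs_pos.2 (hκ0 j)) (Int.natCast_dvd.1 hd)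
    have h3 := hκ j
    omega
  have hodd2 : ∀ p : ℕ, p.Prime → p ∣ ∏ j, s j → p ≠ 2 := by
    intro p hp h
    have h1 := (mem_PS.1 (hPSof p hp h)).1.1
    omega
  have hxc : XCL := Pool.Agent.W342.RK2.xcl
  have hdesc : DESC4 := Pool.Agent.W214.RK2.desc4
  have hd := hdesc (∏ j, s j) (LLs cls (fun j _ => kapM cls a μ α β j) s ∅)
    (FM cls a μ f 0) (FM cls a μ f 1) (hFne 0) (hFne 1)
    (fun h => hFne 2 (by rw [← hF, h, sub_self]))
    (by
      rw [← Nat.not_even_iff_odd, even_iff_two_dvd]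
      intro h
      exact hodd2 2 Nat.prime_two h rfl)
    ((PP_squarefree z y).squarefree_of_dvd hmd)
    (fun p hp hpd => ⟨fun j hj => (hxc _ _ _ p hp (hodd2 p hp hpd)
        (fun _ => hnκ p hp hpd j)).1,
      fun a1 b1 c1 d1 a2 b2 c2 d2 e1 e2 j hj =>
        (hxc _ _ _ p hp (hodd2 p hp hpd) (fun _ => hnκ p hp hpd j)).2 a1 b1 c1 d1 a2 b2 c2 d2
          (e1 j hj) (e2 j hj)⟩)
    (fun p hp hpd x x' hx' hcurve e1 e2 he1 he2 hsq1 hsq2 j hj => by
      have hpp : p.Prime := Fact.out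
      have hjs := (S1_dvd_iff hpp).1 hj
      have hzp := (mem_PS.1 hjs.1).1.1
      have hfin := hloc (cls j) (kapM cls a μ α β j) p (FM cls a μ f 0) (FM cls a μ f 1) (hc3 j)
        (hodd2 p hpp hpd) (hnκ p hpp hpd j) (hFne 0) (hFne 1)
        (fun h => hFne 2 (by rw [← hF, h, sub_self]))
        (locHM hB ha hev hμ hpp hzp huv hF (h0 j) hjs.2.1 hjs.2.2 (hc3 j) (hnκ p hpp hpd j)
          (hodd j)) x x' hx' hcurve e1 e2 he1 he2 hsq1 hsq2
      have hdec : decide (p ∈ (∅ : Finset ℕ)) = false := by simp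
      rw [hdec]
      exact hfin)
  rw [hF] at hd
  refine hd.trans (Nat.mul_le_mul_right _ ?_)
  have hc := badM (cls := cls) (μ := μ) (y := y) hB ha hX hy h0 hb hk
  rw [← hf, ← hs] at hc
  calc 4 ^ (((2 * FM cls a μ f 0 * FM cls a μ f 1 *
        FM cls a μ f 2).natAbs.primeFactors.filter (fun q => ¬ q ∣ ∏ j, s j)).card + 2)
      ≤ 4 ^ ((z + 2) + (Fintype.card J * (2 * k)) + ∑ j, (S2 z y f j).primeFactors.card) :=
        Nat.pow_le_pow_right (by norm_num) (by omega)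
    _ = _ := by
        rw [pow_add, pow_add]
        congr 2
        rw [← pow_mul, show (16 : ℕ) = 4 ^ 2 by norm_num, ← pow_mul]
        congr 1
        ring

end Pool.Agent.W571.RT
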