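import Pool.Agent.W307.RT.Stm
import Pool.Agent.W342.RK2.LocL

/-! Task TRK-LOCM: local conditions with multiplicities. -/

set_option autoImplicit false

namespace Pool.Agent.W571.RT

open Pool.Agent.W262.RK Pool.Agent.W22.RK Pool.Agent.W342.RK2 Pool.Agent.W307.RT

section loc

variable {p : ℕ} [hp : Fact p.Prime]

lemma sq_div {r s : ℚ} (hs : s ≠ 0) (h1 : IsSquare ((r * s : ℚ) : ℚ_[p]))
    (h2 : IsSquare ((s : ℚ) : ℚ_[p])) : IsSquare ((r : ℚ) : ℚ_[p]) := by
  obtain ⟨u, hu⟩ := h1
  obtain ⟨w, hw⟩ := h2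
  have hsc : ((s : ℚ) : ℚ_[p]) ≠ 0 := by exact_mod_cast hs
  have hw0 : w ≠ 0 := by
    rintro rfl
    rw [mul_zero] at hw
    exact hsc hw
  refine ⟨u / w, ?_⟩
  rw [div_mul_div_comm, ← hu, ← hw]
  push_cast
  field_simp

/-- a unit with symbol one is a square -/
lemma sq_of_jac (hp2 : p ≠ 2) {n : ℤ} (hn : ¬ (p : ℤ) ∣ n) (h : jacobiSym n p = 1) :
    IsSquare ((n : ℚ) : ℚ_[p]) := by
  rw [← jacobiSym.legendreSym.to_jacobiSym] at h
  have h6 : ((n : ℤ) : ZMod p) ≠ 0 := by
    intro h
    exact hn ((ZMod.intCast_zmod_eq_zero_iff_dvd n p).1 h)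
  rw [legendreSym.eq_one_iff p h6] at h
  obtain ⟨w, hw⟩ := h
  obtain ⟨k, rfl⟩ := ZMod.intCast_surjective w
  have hk : ¬ (p : ℤ) ∣ k := by
    intro h7
    apply h6
    rw [hw, (ZMod.intCast_zmod_eq_zero_iff_dvd k p).2 h7, mul_zero]
  have hd : (p : ℤ) ∣ n - k * k := by
    rw [← ZMod.intCast_zmod_eq_zero_iff_dvd]
    push_cast
    rw [hw, sub_self]
  have hk0 : (k : ℚ) ≠ 0 := by
    intro h8
    apply hk
    have : k = 0 := by exact_mod_cast h8
    simp [this]
  have hkk : ¬ (p : ℤ) ∣ k * k := not_dvd_mul hk hk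
  apply sq_cancel hk0
  apply near hp2 (mul_ne_zero hk0 hk0)
  by_cases h9 : (n : ℚ) - k * k = 0
  · left; exact h9
  · right
    have e1 : padicValRat p ((k : ℚ) * k) = 0 := by
      have := v_int (p := p) hkk
      push_cast at this
      exact this
    rw [e1]
    have e2 : (n : ℚ) - k * k = ((n - k * k : ℤ) : ℚ) := by push_cast; ring
    rw [e2] at h9 ⊢
    rw [padicValRat.of_int]
    have h10 : n - k * k ≠ 0 := by exact_mod_cast h9
    have h11 : 1 ≤ padicValInt p (n - k * k) := by
      have := (padicValInt_dvd_iff (p := p) 1 (n - k * k)).1 (by simpa using hd)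
      rcases this with h12 | h12
      · exact absurd h12 h10
      · exact h12
    exact_mod_cast h11

/-- the main local computation -/
lemma locg (hp2 : p ≠ 2) {A B : ℤ} (hA : (p : ℤ) ∣ A) (hB : ¬ (p : ℤ) ∣ B) (hA0 : A ≠ 0)
    (H : Odd (padicValInt p A) ∨ IsSquare (((-B : ℤ) : ℚ) : ℚ_[p])) (x y : ℚ) (hy : y ≠ 0)
    (hxy : y ^ 2 = x * (x - A) * (x - B)) :
    (Even (padicValRat p x) → IsSquare ((x - B : ℚ) : ℚ_[p])) ∧
    (¬ Even (padicValRat p x) → IsSquare ((-B * (x - B) : ℚ) : ℚ_[p])) := by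
  have hy2 : y ^ 2 ≠ 0 := pow_ne_zero 2 hy
  rw [hxy] at hy2
  have hx : x ≠ 0 := left_ne_zero_of_mul (left_ne_zero_of_mul hy2)
  have hxA : x - A ≠ 0 := right_ne_zero_of_mul (left_ne_zero_of_mul hy2)
  have hxB : x - B ≠ 0 := right_ne_zero_of_mul hy2
  have hAq : (A : ℚ) ≠ 0 := by exact_mod_cast hA0
  have hnB : ¬ (p : ℤ) ∣ -B := not_dvd_neg hB
  have hBq : (-B : ℚ) ≠ 0 := by
    intro h
    apply hB
    have : B = 0 := by
      have : (B : ℚ) = 0 := by linarith
      exact_mod_cast this
    simp [this]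
  have vA : padicValRat p (A : ℚ) = (padicValInt p A : ℤ) := padicValRat.of_int
  have vA1 : 1 ≤ padicValInt p A := by
    have := (padicValInt_dvd_iff (p := p) 1 A).1 (by simpa using hA)
    rcases this with h12 | h12
    · exact absurd h12 hA0
    · exact h12
  have vB : padicValRat p (-B : ℚ) = 0 := by
    have := v_int (p := p) hnB
    push_cast at this
    exact this
  -- x - A ~ x if v x < v A
  have key1 : padicValRat p x < (padicValInt p A : ℤ) → IsSquare (((x - A) * x : ℚ) : ℚ_[p]) := by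
    intro h
    apply near hp2 hx
    right
    have e : x - (A : ℚ) - x = -(A : ℚ) := by ring
    rw [e, v_neg, vA]
    exact h
  -- then x - B is a square
  have key2 : padicValRat p x < (padicValInt p A : ℤ) → IsSquare ((x - B : ℚ) : ℚ_[p]) := by
    intro h
    apply sq_div (mul_ne_zero hxA hx) _ (key1 h)
    refine ⟨((y : ℚ) : ℚ_[p]), ?_⟩
    rw [← Rat.cast_mul]
    congr 1
    rw [← pow_two, hxy]
    ring
  have key3 : 0 < padicValRat p x → IsSquare (((x - B) * -B : ℚ) : ℚ_[p]) := by
    intro h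
    apply near hp2 hBq
    right
    have e : x - (B : ℚ) - -(B : ℚ) = x := by ring
    rw [e, vB]
    exact h
  rcases lt_trichotomy (padicValRat p x) 0 with h | h | h
  · have h1 := key1 (by omega)
    have h2 : IsSquare (((x - B) * x : ℚ) : ℚ_[p]) := by
      apply near hp2 hx
      right
      have e : x - (B : ℚ) - x = (-B : ℚ) := by ring
      rw [e, vB]
      exact h
    have h3 : IsSquare ((x : ℚ) : ℚ_[p]) := by
      apply sq_cancel hx
      exact third (b := x) hxA hxB hx hx (by rw [hxy]; ring) h1 h2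
    have h4 := val_sq hx h3
    exact ⟨fun _ => key2 (by omega), fun h5 => absurd h4 h5⟩
  · refine ⟨fun _ => key2 (by omega), fun h5 => absurd ?_ h5⟩
    rw [h]
    exact Even.zero
  · refine ⟨fun hev => ?_, fun _ => by rw [mul_comm]; exact key3 h⟩
    rcases H with H | H
    · rcases lt_trichotomy (padicValRat p x) (padicValInt p A : ℤ) with h1 | h1 | h1
      · exact key2 h1
      · exfalso
        rw [h1] at hev
        have : Even (padicValInt p A) := by exact_mod_cast hev
        exact (Nat.not_even_iff_odd.2 H) this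
      · exfalso
        have e1 : padicValRat p (x - A) = (padicValInt p A : ℤ) := by
          have := v_add (p := p) (a := -(A : ℚ)) (b := x) (neg_ne_zero.2 hAq) hx
            (by rw [neg_add_eq_sub]; exact hxA) (by rw [v_neg, vA]; exact h1)
          rw [neg_add_eq_sub, v_neg, vA] at this
          exact this
        have e2 : padicValRat p (x - B) = 0 := by
          have := v_add (p := p) (a := -(B : ℚ)) (b := x) hBq hx
            (by rw [neg_add_eq_sub]; exact hxB) (by rw [vB]; exact h)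
          rw [neg_add_eq_sub, vB] at this
          exact this
        have hsum := v_mul3 (p := p) hx hxA hxB hxy
        rw [e1, e2] at hsum
        obtain ⟨k, hk⟩ := hev
        obtain ⟨m, hm⟩ := H
        omega
    · have H' : IsSquare (((-B : ℚ)) : ℚ_[p]) := by
        push_cast at H ⊢
        exact H
      exact sq_div hBq (key3 h) H'

lemma jac_split (hp2 : p ≠ 2) {k n : ℤ} (hk : ¬ (p : ℤ) ∣ k) (hn : ¬ (p : ℤ) ∣ n)
    (h : jacobiSym (k * n) p = 1) (h1 : jacobiSym k p = 1) : IsSquare ((n : ℚ) : ℚ_[p]) := by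
  apply sq_of_jac hp2 hn
  rw [jacobiSym.mul_left, h1, one_mul] at h
  exact h

end loc

theorem locm : LOCM := by
  intro c κ p hpf A B hc3 hp2 hκ hA0 hB0 hAB0 hL x y hy hxy e1 e2 he1 he2 hs1 hs2
  have hq1 := not_sq_of_squarefree (p := p) he1
  have hq2 := not_sq_of_squarefree (p := p) he2
  have he10 : e1 ≠ 0 := by rintro rfl; exact hq1 (dvd_zero _)
  have he20 : e2 ≠ 0 := by rintro rfl; exact hq2 (dvd_zero _)
  have hy2 : y ^ 2 ≠ 0 := pow_ne_zero 2 hy
  rw [hxy] at hy2
  have hx : x ≠ 0 := left_ne_zero_of_mul (left_ne_zero_of_mul hy2)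
  have hxA : x - A ≠ 0 := right_ne_zero_of_mul (left_ne_zero_of_mul hy2)
  have hxB : x - B ≠ 0 := right_ne_zero_of_mul hy2
  have hthird := third (p := p) hx hxA (Int.cast_ne_zero.2 he10) (Int.cast_ne_zero.2 he20) hxy
    hs1 hs2
  unfold LocM at hL
  unfold LL
  by_cases c0 : c = 0
  · -- class 0
    rw [if_pos c0] at hL ⊢
    obtain ⟨hA, hB, hj, hodd⟩ := hL
    obtain ⟨hsq1, hsq2⟩ := locg hp2 hA hB hA0
      (hodd.imp_right (jac_split hp2 hκ (not_dvd_neg hB) hj)) x y hy hxy
    have hxBc : ((x - B : ℚ) : ℚ_[p]) ≠ 0 := by exact_mod_cast hxB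
    have hnB : ¬ (p : ℤ) ∣ -B := not_dvd_neg hB
    by_cases hev : Even (padicValRat p x)
    · have hv := (par hx hq1 hs1).1 hev
      have h1 : IsSquare ((e1 * e2 : ℚ) : ℚ_[p]) := by
        obtain ⟨u, hu⟩ := hthird
        obtain ⟨w, hw⟩ := hsq1 hev
        refine ⟨u / w, ?_⟩
        have hw0 : w ≠ 0 := by
          rintro rfl
          rw [mul_zero] at hw
          exact hxBc hw
        field_simp
        rw [pow_two, pow_two, ← hu, ← hw]
        push_cast
        ring
      obtain ⟨k1, k2⟩ := cmp hq1 hq2 h1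
      refine ⟨k1, ?_⟩
      rw [hv, k2]
      simp
    · have hv : dv p e1 = true := by
        have := mt (par hx hq1 hs1).2 hev
        simpa using this
      have h1 : IsSquare ((e1 * ((e2 * -B : ℤ) : ℚ) : ℚ) : ℚ_[p]) := by
        obtain ⟨u, hu⟩ := hthird
        obtain ⟨w, hw⟩ := hsq2 hev
        have hBc : ((B : ℤ) : ℚ_[p]) ≠ 0 := by
          intro h
          apply hB
          have : B = 0 := by exact_mod_cast h
          simp [this]
        push_cast at hw hu hxBc
        refine ⟨u * w / (x - B), ?_⟩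
        have : u * w / ((x : ℚ_[p]) - B) * (u * w / (x - B)) =
            (u * u) * (w * w) / ((x - B) * (x - B)) := by
          rw [div_mul_div_comm]
          ring
        rw [this, ← hu, ← hw]
        push_cast
        field_simp
      obtain ⟨k1, k2⟩ := cmp hq1 (not_sq_mul_unit hq2 hnB) h1
      rw [dv_mul_unit hnB] at k1
      rw [sgn_mul_unit hq2 hnB] at k2
      have k3 := sg0_eq_false hj
      rw [sg0_mul hκ hnB] at k3
      refine ⟨k1, ?_⟩
      rw [k2, hv]
      revert k3
      generalize sg0 p κ = s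
      generalize sg0 p (-B) = t
      generalize sgn p e2 = r
      revert s t r
      decide
  rw [if_neg c0] at hL ⊢
  by_cases c1 : c = 1
  · -- class 1
    rw [if_pos c1] at hL ⊢
    obtain ⟨hB, hA, hj, hodd⟩ := hL
    obtain ⟨hsq1, hsq2⟩ := locg hp2 hB hA hB0
      (hodd.imp_right (jac_split hp2 hκ (not_dvd_neg hA) hj)) x y hy (by rw [hxy]; ring)
    have hnA : ¬ (p : ℤ) ∣ -A := not_dvd_neg hA
    by_cases hev : Even (padicValRat p x)
    · have hv := (par hx hq1 hs1).1 hev
      have h1 : IsSquare (((x - A) * ((1 : ℤ) : ℚ) : ℚ) : ℚ_[p]) := by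
        have := hsq1 hev
        push_cast at this ⊢
        rwa [mul_one]
      obtain ⟨k1, k2⟩ := cmpx hxA hq2 (not_sq_of_unit not_dvd_one) hs2 h1
      rw [dv_unit not_dvd_one] at k1
      rw [sgn_unit not_dvd_one, sg0_one] at k2
      exact ⟨k1, by rw [k2, hv]; simp⟩
    · have hv : dv p e1 = true := by
        have := mt (par hx hq1 hs1).2 hev
        simpa using this
      have h1 : IsSquare (((x - A) * ((-A : ℤ) : ℚ) : ℚ) : ℚ_[p]) := by
        have := hsq2 hev
        rw [mul_comm] at this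
        push_cast at this ⊢
        exact this
      obtain ⟨k1, k2⟩ := cmpx hxA hq2 (not_sq_of_unit hnA) hs2 h1
      rw [dv_unit hnA] at k1
      rw [sgn_unit hnA] at k2
      have k3 := sg0_eq_false hj
      rw [sg0_mul hκ hnA] at k3
      refine ⟨k1, ?_⟩
      rw [k2, hv]
      revert k3
      generalize sg0 p κ = s
      generalize sg0 p (-A) = t
      revert s t
      decide
  rw [if_neg c1] at hL ⊢
  by_cases c2 : c = 2
  · -- class 2
    rw [if_pos c2]
    obtain ⟨hC, hA, hj, hodd⟩ := hL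
    have hC' : (p : ℤ) ∣ B - A := by rw [← neg_sub]; exact hC.neg_right
    have hnA : ¬ (p : ℤ) ∣ -A := not_dvd_neg hA
    have hvv : padicValInt p (B - A) = padicValInt p (A - B) := by
      unfold padicValInt
      rw [← neg_sub, Int.natAbs_neg]
    obtain ⟨hsq1, hsq2⟩ := locg hp2 hC' hnA (sub_ne_zero.2 (Ne.symm hAB0))
      (by
        rw [hvv, neg_neg]
        exact hodd.imp_right (jac_split hp2 hκ hA hj)) (x - A) y hy
      (by rw [hxy]; push_cast; ring)
    by_cases hev : Even (padicValRat p (x - A))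
    · have hv := (par hxA hq2 hs2).1 hev
      have h1 : IsSquare ((x * ((1 : ℤ) : ℚ) : ℚ) : ℚ_[p]) := by
        have := hsq1 hev
        push_cast at this ⊢
        rw [mul_one]
        convert this using 1
        ring
      obtain ⟨k1, k2⟩ := cmpx hx hq1 (not_sq_of_unit not_dvd_one) hs1 h1
      rw [dv_unit not_dvd_one] at k1
      rw [sgn_unit not_dvd_one, sg0_one] at k2
      exact ⟨k1, by rw [k2, hv]; simp⟩
    · have hv : dv p e2 = true := by
        have := mt (par hxA hq2 hs2).2 hev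
        simpa using this
      have h1 : IsSquare ((x * (A : ℚ) : ℚ) : ℚ_[p]) := by
        have := hsq2 hev
        push_cast at this ⊢
        convert this using 1
        ring
      obtain ⟨k1, k2⟩ := cmpx hx hq1 (not_sq_of_unit hA) hs1 h1
      rw [dv_unit hA] at k1
      rw [sgn_unit hA] at k2
      have k3 := sg0_eq_false hj
      rw [sg0_mul hκ hA] at k3
      refine ⟨k1, ?_⟩
      rw [k2, hv]
      revert k3
      generalize sg0 p κ = s
      generalize sg0 p A = t
      revert s t
      decide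
  exfalso
  have h4 : ∀ c : Fin 4, c = 0 ∨ c = 1 ∨ c = 2 ∨ c = 3 := by decide
  rcases h4 c with h5 | h5 | h5 | h5
  · exact c0 h5
  · exact c1 h5
  · exact c2 h5
  · exact hc3 h5

end Pool.Agent.W571.RT
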